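import Mathlib

/-!
# Additive energy of a union of sets
-/

set_option autoImplicit false

namespace Pool.Agent.Lib_helper96.CvxPoly

open Finset
open scoped Combinatorics.Additive Pointwise

/-- the number of representations as a difference -/
noncomputable def df (S : Finset ℝ) (δ : ℝ) : ℕ := #{p ∈ S ×ˢ S | p.1 - p.2 = δ}

theorem sum_df_sq_le (S Δ : Finset ℝ) : ∑ δ ∈ Δ, df S δ ^ 2 ≤ E[S, S] := by
  classical
  have h1 : ∀ δ ∈ Δ, df S δ ^ 2 =
      (({p ∈ S ×ˢ S | p.1 - p.2 = δ} ×ˢ {p ∈ S ×ˢ S | p.1 - p.2 = δ} :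
        Finset ((ℝ × ℝ) × (ℝ × ℝ)))).card := by
    intro δ _
    rw [Finset.card_product, sq]
    rfl
  rw [Finset.sum_congr rfl h1, ← Finset.card_biUnion]
  · unfold Finset.addEnergy
    apply Finset.card_le_card_of_injOn (fun q => ((q.1.1, q.2.1), (q.2.2, q.1.2)))
    · intro q hq
      obtain ⟨δ, _, hδ⟩ := Finset.mem_biUnion.1 (Finset.mem_coe.1 hq)
      obtain ⟨a, b⟩ := Finset.mem_product.1 hδ
      obtain ⟨a1, a2⟩ := Finset.mem_filter.1 a
      obtain ⟨b1, b2⟩ := Finset.mem_filter.1 b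
      obtain ⟨a3, a4⟩ := Finset.mem_product.1 a1
      obtain ⟨b3, b4⟩ := Finset.mem_product.1 b1
      rw [Finset.mem_coe, Finset.mem_filter]
      refine ⟨Finset.mem_product.2 ⟨Finset.mem_product.2 ⟨a3, b3⟩,
        Finset.mem_product.2 ⟨b4, a4⟩⟩, ?_⟩
      change q.1.1 + q.2.2 = q.2.1 + q.1.2
      linarith
    · intro q _ q' _ he
      simp only [Prod.mk.injEq] at he
      exact Prod.ext (Prod.ext he.1.1 he.2.2) (Prod.ext he.1.2 he.2.1)
  · intro δ _ δ' _ hne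
    rw [Function.onFun, Finset.disjoint_left]
    intro q hq hq'
    have a := (Finset.mem_filter.1 (Finset.mem_product.1 hq).1).2
    have b := (Finset.mem_filter.1 (Finset.mem_product.1 hq').1).2
    exact hne (a.symm.trans b)

theorem energy_le_sum_df (S T : Finset ℝ) : E[S, T] ≤ ∑ δ ∈ S - S, df S δ * df T δ := by
  classical
  unfold Finset.addEnergy
  rw [Finset.card_eq_sum_card_fiberwise (f := fun x : (ℝ × ℝ) × (ℝ × ℝ) => x.1.1 - x.1.2)
    (t := S - S)]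
  · apply Finset.sum_le_sum
    intro δ _
    unfold df
    rw [← Finset.card_product]
    apply Finset.card_le_card_of_injOn (fun q => ((q.1.1, q.1.2), (q.2.2, q.2.1)))
    · intro q hq
      obtain ⟨a, b⟩ := Finset.mem_filter.1 (Finset.mem_coe.1 hq)
      obtain ⟨a1, a2⟩ := Finset.mem_filter.1 a
      obtain ⟨c, e⟩ := Finset.mem_product.1 a1
      obtain ⟨c1, c2⟩ := Finset.mem_product.1 c
      obtain ⟨e1, e2⟩ := Finset.mem_product.1 e
      rw [Finset.mem_coe, Finset.mem_product, Finset.mem_filter, Finset.mem_filter]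
      refine ⟨⟨Finset.mem_product.2 ⟨c1, c2⟩, b⟩, Finset.mem_product.2 ⟨e2, e1⟩, ?_⟩
      change q.2.2 - q.2.1 = δ
      rw [← b]
      linarith
    · intro q _ q' _ he
      simp only [Prod.mk.injEq] at he
      exact Prod.ext (Prod.ext he.1.1 he.1.2) (Prod.ext he.2.2 he.2.1)
  · intro q hq
    obtain ⟨a1, a2⟩ := Finset.mem_filter.1 (Finset.mem_coe.1 hq)
    obtain ⟨c, e⟩ := Finset.mem_product.1 a1
    obtain ⟨c1, c2⟩ := Finset.mem_product.1 c
    exact Finset.mem_coe.2 (Finset.sub_mem_sub c1 c2)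

theorem energy_le_sqrt (S T : Finset ℝ) :
    (E[S, T] : ℝ) ≤ Real.sqrt (E[S, S]) * Real.sqrt (E[T, T]) := by
  have h1 : (E[S, T] : ℝ) ≤ ∑ δ ∈ S - S, (df S δ : ℝ) * df T δ := by
    exact_mod_cast energy_le_sum_df S T
  refine h1.trans ((Real.sum_mul_le_sqrt_mul_sqrt _ _ _).trans ?_)
  apply mul_le_mul
  · apply Real.sqrt_le_sqrt
    exact_mod_cast sum_df_sq_le S (S - S)
  · apply Real.sqrt_le_sqrt
    exact_mod_cast sum_df_sq_le T (S - S)
  · exact Real.sqrt_nonneg _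
  · exact Real.sqrt_nonneg _

/-- the energy of a union of `m` sets -/
theorem energy_cover {ι : Type} [Fintype ι] (A : Finset ℝ) (B : ι → Finset ℝ)
    (hA : ∀ a ∈ A, ∃ j, a ∈ B j) :
    (E[A, A] : ℝ) ≤ (Fintype.card ι : ℝ) ^ 2 * (∑ j, Real.sqrt (E[B j, B j])) ^ 2 := by
  classical
  -- the sums
  have hU : A ⊆ Finset.univ.biUnion B := by
    intro a ha
    obtain ⟨j, hj⟩ := hA a ha
    exact Finset.mem_biUnion.2 ⟨j, Finset.mem_univ _, hj⟩
  set U := Finset.univ.biUnion B with hUdef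
  have hBU : ∀ j, B j ⊆ U := fun j => Finset.subset_biUnion_of_mem B (Finset.mem_univ j)
  have h0 : E[A, A] ≤ E[U, U] := Finset.addEnergy_mono hU hU
  have h1 := Finset.addEnergy_eq_sum_sq' U U
  have h2 : ∀ s : ℝ, #{xy ∈ U ×ˢ U | xy.1 + xy.2 = s} ≤
      ∑ p : ι × ι, #{xy ∈ B p.1 ×ˢ B p.2 | xy.1 + xy.2 = s} := by
    intro s
    refine le_trans (Finset.card_le_card ?_) Finset.card_biUnion_le
    intro q hq
    obtain ⟨a, b⟩ := Finset.mem_filter.1 hq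
    obtain ⟨a1, a2⟩ := Finset.mem_product.1 a
    obtain ⟨j, _, hj⟩ := Finset.mem_biUnion.1 a1
    obtain ⟨k, _, hk⟩ := Finset.mem_biUnion.1 a2
    exact Finset.mem_biUnion.2 ⟨(j, k), Finset.mem_univ _,
      Finset.mem_filter.2 ⟨Finset.mem_product.2 ⟨hj, hk⟩, b⟩⟩
  have h3 : (E[U, U] : ℝ) ≤ ∑ s ∈ U + U, (Fintype.card (ι × ι) : ℝ) *
      ∑ p : ι × ι, (#{xy ∈ B p.1 ×ˢ B p.2 | xy.1 + xy.2 = s} : ℝ) ^ 2 := by
    rw [h1]
    push_cast
    apply Finset.sum_le_sum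
    intro s _
    have h4 : (#{xy ∈ U ×ˢ U | xy.1 + xy.2 = s} : ℝ) ≤
      ∑ p : ι × ι, (#{xy ∈ B p.1 ×ˢ B p.2 | xy.1 + xy.2 = s} : ℝ) := by exact_mod_cast h2 s
    refine (pow_le_pow_left₀ (by positivity) h4 2).trans ?_
    exact sq_sum_le_card_mul_sum_sq
  have h5 : ∀ p : ι × ι, ∑ s ∈ U + U, (#{xy ∈ B p.1 ×ˢ B p.2 | xy.1 + xy.2 = s} : ℝ) ^ 2 ≤
      (E[B p.1, B p.2] : ℝ) := by
    intro p
    rw [Finset.addEnergy_eq_sum_sq']
    push_cast
    rw [← Finset.sum_subset (Finset.add_subset_add (hBU p.1) (hBU p.2))]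
    intro s _ hs
    have h6 : ({xy ∈ B p.1 ×ˢ B p.2 | xy.1 + xy.2 = s} : Finset (ℝ × ℝ)) = ∅ := by
      rw [Finset.filter_eq_empty_iff]
      intro q hq he
      obtain ⟨a1, a2⟩ := Finset.mem_product.1 hq
      exact hs (he ▸ Finset.add_mem_add a1 a2)
    rw [h6]
    simp
  calc (E[A, A] : ℝ) ≤ E[U, U] := by exact_mod_cast h0
    _ ≤ ∑ s ∈ U + U, (Fintype.card (ι × ι) : ℝ) *
      ∑ p : ι × ι, (#{xy ∈ B p.1 ×ˢ B p.2 | xy.1 + xy.2 = s} : ℝ) ^ 2 := h3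
    _ = (Fintype.card (ι × ι) : ℝ) * ∑ p : ι × ι,
        ∑ s ∈ U + U, (#{xy ∈ B p.1 ×ˢ B p.2 | xy.1 + xy.2 = s} : ℝ) ^ 2 := by
        rw [← Finset.mul_sum, Finset.sum_comm]
    _ ≤ (Fintype.card (ι × ι) : ℝ) * ∑ p : ι × ι,
        Real.sqrt (E[B p.1, B p.1]) * Real.sqrt (E[B p.2, B p.2]) := by
        apply mul_le_mul_of_nonneg_left _ (by positivity)
        exact Finset.sum_le_sum (fun p _ => (h5 p).trans (energy_le_sqrt _ _))
    _ = (Fintype.card ι : ℝ) ^ 2 * (∑ j, Real.sqrt (E[B j, B j])) ^ 2 := by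
        rw [Fintype.card_prod, ← Finset.univ_product_univ, Finset.sum_product, sq (∑ j, _),
          Finset.sum_mul_sum]
        push_cast
        ring

end Pool.Agent.Lib_helper96.CvxPoly
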