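import Pool.Agent.Lib_helper96.CvxPoly.Count
import Pool.Agent.Lib_helper96.CvxPoly.Energy

/-!
# Energy of the values of a real polynomial
-/

set_option autoImplicit false

namespace Pool.Agent.Lib_helper96.CvxPoly

open Finset Polynomial
open scoped Combinatorics.Additive Pointwise

/-- the vector of a quadruple -/
def vq (q : (ℕ × ℕ) × (ℕ × ℕ)) (j : ℕ) : ℤ :=
  (q.1.1 : ℤ) ^ j + (q.1.2 : ℤ) ^ j - (q.2.1 : ℤ) ^ j - (q.2.2 : ℤ) ^ j

theorem vq_zero (q : (ℕ × ℕ) × (ℕ × ℕ)) : vq q 0 = 0 := by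
  unfold vq
  simp

theorem pow_le_aux {x n d j : ℕ} (hx : x < n) (hj : j ≤ d) : x ^ j ≤ n ^ d :=
  (Nat.pow_le_pow_left hx.le j).trans (Nat.pow_le_pow_right (by omega) hj)

theorem vq_le {φ : ℕ → ℝ} {n d : ℕ} {q : (ℕ × ℕ) × (ℕ × ℕ)} (hq : q ∈ quad φ n) {j : ℕ}
    (hj : j ≤ d) : |(vq q j : ℝ)| ≤ 2 * (n : ℝ) ^ d := by
  obtain ⟨⟨⟨a1, a2⟩, a3, a4⟩, -⟩ := mem_quad.1 hq
  have h1 : (q.1.1 : ℝ) ^ j ≤ (n : ℝ) ^ d := by exact_mod_cast pow_le_aux a1 hj
  have h2 : (q.1.2 : ℝ) ^ j ≤ (n : ℝ) ^ d := by exact_mod_cast pow_le_aux a2 hj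
  have h3 : (q.2.1 : ℝ) ^ j ≤ (n : ℝ) ^ d := by exact_mod_cast pow_le_aux a3 hj
  have h4 : (q.2.2 : ℝ) ^ j ≤ (n : ℝ) ^ d := by exact_mod_cast pow_le_aux a4 hj
  have g1 : (0 : ℝ) ≤ (q.1.1 : ℝ) ^ j := by positivity
  have g2 : (0 : ℝ) ≤ (q.1.2 : ℝ) ^ j := by positivity
  have g3 : (0 : ℝ) ≤ (q.2.1 : ℝ) ^ j := by positivity
  have g4 : (0 : ℝ) ≤ (q.2.2 : ℝ) ^ j := by positivity
  unfold vq
  push_cast
  rw [abs_le]
  constructor <;> linarith

/-- the relation of a quadruple, in terms of the coefficients -/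
theorem rel_sum (c : ℕ → ℝ) (d : ℕ) (q : (ℕ × ℕ) × (ℕ × ℕ)) :
    ∑ j ∈ range (d + 1), (vq q j : ℝ) * c j =
      ((∑ j ∈ range (d + 1), c j * (q.1.1 : ℝ) ^ j) + ∑ j ∈ range (d + 1), c j * (q.1.2 : ℝ) ^ j) -
      ((∑ j ∈ range (d + 1), c j * (q.2.1 : ℝ) ^ j) +
        ∑ j ∈ range (d + 1), c j * (q.2.2 : ℝ) ^ j) := by
  rw [← Finset.sum_add_distrib, ← Finset.sum_add_distrib, ← Finset.sum_sub_distrib]
  apply Finset.sum_congr rfl
  intro j _
  unfold vq
  push_cast
  ring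

theorem exists_int (f : ℝ[X]) (d n : ℕ) (h2 : 2 ≤ f.natDegree) (hd : f.natDegree ≤ d)
    (hn : 1 ≤ n) : ∃ g : ℤ[X], 2 ≤ g.natDegree ∧ g.natDegree ≤ d ∧
      (∀ j, |(g.coeff j : ℝ)| ≤ (d * (2 * (n : ℝ) ^ d)) ^ d) ∧
      quad (fun x => f.eval (x : ℝ)) n ⊆ quad (fun x => ((g.eval (x : ℤ) : ℤ) : ℝ)) n := by
  classical
  set Q := quad (fun x => f.eval (x : ℝ)) n with hQ
  have hev : ∀ x : ℝ, f.eval x = ∑ j ∈ range (d + 1), f.coeff j * x ^ j := by
    intro x
    exact eval_eq_sum_range' (by omega) x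
  have hrel : ∀ q ∈ Q, ∑ j ∈ range (d + 1), (vq q j : ℝ) * f.coeff j = 0 := by
    intro q hq
    have h := (mem_quad.1 hq).2
    rw [rel_sum, ← hev, ← hev, ← hev, ← hev]
    linarith
  have ha : ∃ a : ℕ, 1 ≤ a ∧ a ≤ 2 ∧ (∀ q ∈ Q, ∀ j < a, vq q j = 0) ∧
      (a = 2 ∨ ∃ q ∈ Q, vq q 1 ≠ 0) := by
    by_cases h : ∀ q ∈ Q, vq q 1 = 0
    · refine ⟨2, by omega, le_rfl, ?_, Or.inl rfl⟩
      intro q hq j hj
      interval_cases j
      · exact vq_zero q
      · exact h q hq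
    · push Not at h
      refine ⟨1, le_rfl, by omega, ?_, Or.inr h⟩
      intro q hq j hj
      interval_cases j
      exact vq_zero q
  obtain ⟨a, ha1, ha2, ha3, ha4⟩ := ha
  have hn' : (1 : ℝ) ≤ n := by exact_mod_cast hn
  have hnd : (1 : ℝ) ≤ (n : ℝ) ^ d := one_le_pow₀ hn'
  obtain ⟨t, ht0, htv, htb⟩ := siegel (J := {j // j ∈ Finset.Icc a d})
    {u | ∃ q ∈ Q, u = fun j => vq q j.1} (2 * (n : ℝ) ^ d) (by linarith)
    (by
      rintro _ ⟨q, hq, rfl⟩ j
      exact vq_le hq (Finset.mem_Icc.1 j.2).2)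
    (fun j => f.coeff j.1)
    (by
      intro h
      have h3 := congrFun h ⟨f.natDegree, Finset.mem_Icc.2 ⟨by omega, hd⟩⟩
      have h4 : f.leadingCoeff = 0 := h3
      rw [leadingCoeff_eq_zero] at h4
      rw [h4, natDegree_zero] at h2
      omega)
    (by
      rintro _ ⟨q, hq, rfl⟩
      have h3 := Finset.sum_coe_sort (Finset.Icc a d) (fun j => (vq q j : ℝ) * f.coeff j)
      refine h3.trans ?_
      rw [← hrel q hq]
      apply Finset.sum_subset
      · intro j hj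
        have := Finset.mem_Icc.1 hj
        exact Finset.mem_range.2 (by omega)
      · intro j hj hj'
        have h5 := Finset.mem_range.1 hj
        have h6 : j < a := by
          by_contra h7
          exact hj' (Finset.mem_Icc.2 ⟨by omega, by omega⟩)
        rw [ha3 q hq j h6]
        simp)
  let T : ℕ → ℤ := fun j => if h : j ∈ Finset.Icc a d then t ⟨j, h⟩ else 0
  have hT1 : ∀ j (h : j ∈ Finset.Icc a d), T j = t ⟨j, h⟩ := by
    intro j h
    simp only [T, dif_pos h]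
  have hT2 : ∀ j, j ∉ Finset.Icc a d → T j = 0 := by
    intro j h
    simp only [T, dif_neg h]
  let g : ℤ[X] := ∑ j ∈ range (d + 1), C (T j) * X ^ j
  have hgc : ∀ j, g.coeff j = T j := by
    intro j
    simp only [g, finset_sum_coeff, coeff_C_mul, coeff_X_pow, mul_ite, mul_one, mul_zero]
    rw [Finset.sum_ite_eq]
    by_cases h : j ∈ range (d + 1)
    · rw [if_pos h]
    · rw [if_neg h, hT2 j]
      intro h'
      have := Finset.mem_Icc.1 h'
      exact h (Finset.mem_range.2 (by omega))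
  have hgd : g.natDegree ≤ d := by
    rw [natDegree_le_iff_coeff_eq_zero]
    intro N hN
    rw [hgc, hT2]
    intro h'
    have := Finset.mem_Icc.1 h'
    omega
  have hgev : ∀ x : ℤ, g.eval x = ∑ j ∈ range (d + 1), T j * x ^ j := by
    intro x
    rw [eval_eq_sum_range' (n := d + 1) (by omega) x]
    exact Finset.sum_congr rfl (fun j _ => by rw [hgc])
  have hsum : ∀ q ∈ Q, ∑ j ∈ Finset.Icc a d, vq q j * T j = 0 := by
    intro q hq
    have h3 := htv (fun j => vq q j.1) ⟨q, hq, rfl⟩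
    have h4 := Finset.sum_coe_sort (Finset.Icc a d) (fun j => vq q j * T j)
    rw [← h4, ← h3]
    apply Finset.sum_congr rfl
    intro j _
    rw [hT1 j.1 j.2]
  refine ⟨g, ?_, hgd, ?_, ?_⟩
  · -- the degree is at least two
    obtain ⟨j0, hj0⟩ := Function.ne_iff.1 ht0
    have hj0' : T j0.1 ≠ 0 := by rw [hT1 j0.1 j0.2]; exact hj0
    have hex : ∃ j, 2 ≤ j ∧ T j ≠ 0 := by
      by_contra hcon
      push Not at hcon
      have hj1 : j0.1 < 2 := by
        by_contra h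
        exact hj0' (hcon _ (by omega))
      have hj2 := (Finset.mem_Icc.1 j0.2).1
      have ha' : a = 1 := by omega
      rcases ha4 with h | ⟨q, hq, hq1⟩
      · omega
      · have h3 := hsum q hq
        rw [Finset.sum_eq_single 1] at h3
        · have h4 : j0.1 = 1 := by omega
          rw [h4] at hj0'
          rcases mul_eq_zero.1 h3 with h5 | h5
          · exact hq1 h5
          · exact hj0' h5
        · intro j hj hj1
          have := (Finset.mem_Icc.1 hj).1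
          rw [hcon j (by omega), mul_zero]
        · intro h
          exact absurd (Finset.mem_Icc.2 ⟨by omega, by omega⟩) h
    obtain ⟨j, hj, hTj⟩ := hex
    exact hj.trans (le_natDegree_of_ne_zero (by rw [hgc]; exact hTj))
  · intro j
    rw [hgc]
    by_cases h : j ∈ Finset.Icc a d
    · rw [hT1 j h]
      refine (htb _).trans ?_
      have hcard : Fintype.card {j // j ∈ Finset.Icc a d} = d + 1 - a := by
        rw [Fintype.card_coe, Nat.card_Icc]
      have hc1 : Fintype.card {j // j ∈ Finset.Icc a d} ≤ d := by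
        rw [hcard]
        omega
      have hc2 : (Fintype.card {j // j ∈ Finset.Icc a d} : ℝ) ≤ d := by exact_mod_cast hc1
      have hd1 : (1 : ℝ) ≤ d := by exact_mod_cast (by omega : 1 ≤ d)
      have hbase : (1 : ℝ) ≤ d * (2 * (n : ℝ) ^ d) := by nlinarith
      calc ((Fintype.card {j // j ∈ Finset.Icc a d} : ℝ) * (2 * (n : ℝ) ^ d)) ^
            Fintype.card {j // j ∈ Finset.Icc a d}
          ≤ (d * (2 * (n : ℝ) ^ d)) ^ Fintype.card {j // j ∈ Finset.Icc a d} := by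
            apply pow_le_pow_left₀ (by positivity)
            exact mul_le_mul_of_nonneg_right hc2 (by positivity)
        _ ≤ _ := pow_le_pow_right₀ hbase hc1
    · rw [hT2 j h]
      simp only [Int.cast_zero, abs_zero]
      positivity
  · intro q hq
    obtain ⟨h3, -⟩ := mem_quad.1 hq
    rw [mem_quad]
    refine ⟨h3, ?_⟩
    have h4 : ∑ j ∈ range (d + 1), (vq q j : ℝ) * (T j : ℝ) = 0 := by
      have h5 := hsum q hq
      have h6 : ∑ j ∈ range (d + 1), vq q j * T j = 0 := by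
        rw [← h5]
        symm
        apply Finset.sum_subset
        · intro j hj
          have := Finset.mem_Icc.1 hj
          exact Finset.mem_range.2 (by omega)
        · intro j _ hj'
          rw [hT2 j hj', mul_zero]
      exact_mod_cast h6
    rw [rel_sum (fun j => (T j : ℝ))] at h4
    have h7 : ∀ x : ℕ, ((g.eval (x : ℤ) : ℤ) : ℝ) = ∑ j ∈ range (d + 1), (T j : ℝ) * (x : ℝ) ^ j := by
      intro x
      rw [hgev]
      push_cast
      rfl
    simp only [h7]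
    linarith

/-- the values of a real polynomial of degree between `2` and `d` have small energy, uniformly in
the coefficients -/
theorem quad_poly (d : ℕ) (ε : ℝ) (hε : 0 < ε) : ∃ C : ℝ, 0 < C ∧ ∀ (f : ℝ[X]) (n : ℕ),
    2 ≤ f.natDegree → f.natDegree ≤ d →
    ((quad (fun x => f.eval (x : ℝ)) n).card : ℝ) ≤ C * (n : ℝ) ^ (2 + ε) := by
  obtain ⟨L0, hL0⟩ := exists_nat_gt (((d : ℝ) * d + d) / ε)
  have hL : 0 < L0 := by
    have h1 : (0 : ℝ) ≤ ((d : ℝ) * d + d) / ε := by positivity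
    exact_mod_cast h1.trans_lt hL0
  obtain ⟨C1, hC1, hdiv⟩ := Pool.Agent.Lib_helper91.exists_divisor_bound L0 hL
  have hL' : (0 : ℝ) < L0 := by exact_mod_cast hL
  set K : ℝ := (d + 1) * (2 * d) ^ d with hK
  have hK0 : 0 ≤ K := by positivity
  refine ⟨d ^ 2 + 2 * d * (C1 * K ^ ((1 : ℝ) / L0)) + 1, by positivity, ?_⟩
  intro f n h2 hd
  rcases Nat.eq_zero_or_pos n with h0 | hn
  · subst h0
    have : quad (fun x => f.eval (x : ℝ)) 0 = ∅ := by
      unfold quad
      simp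
    rw [this]
    simp only [Finset.card_empty, Nat.cast_zero]
    positivity
  obtain ⟨g, hg2, hgd, hgc, hsub⟩ := exists_int f d n h2 hd hn
  have hn' : (1 : ℝ) ≤ n := by exact_mod_cast hn
  -- the size of the differences
  have hsize : ∀ x < n, ∀ z < n, (((g.eval (x : ℤ) - g.eval (z : ℤ)).natAbs : ℕ) : ℝ) ≤
      K * (n : ℝ) ^ (d * d + d) := by
    intro x hx z hz
    have e1 : (((g.eval (x : ℤ) - g.eval (z : ℤ)).natAbs : ℕ) : ℝ) =
        |∑ j ∈ range (d + 1), (g.coeff j : ℝ) * ((x : ℝ) ^ j - (z : ℝ) ^ j)| := by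
      rw [Nat.cast_natAbs, Int.cast_abs]
      congr 1
      rw [eval_eq_sum_range' (n := d + 1) (by omega), eval_eq_sum_range' (n := d + 1) (by omega),
        ← Finset.sum_sub_distrib]
      push_cast
      apply Finset.sum_congr rfl
      intro j _
      ring
    rw [e1]
    refine (Finset.abs_sum_le_sum_abs _ _).trans ?_
    have e2 : ∀ j ∈ range (d + 1), |(g.coeff j : ℝ) * ((x : ℝ) ^ j - (z : ℝ) ^ j)| ≤
        (d * (2 * (n : ℝ) ^ d)) ^ d * (n : ℝ) ^ d := by
      intro j hj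
      have hj' : j ≤ d := by
        have := Finset.mem_range.1 hj
        omega
      rw [abs_mul]
      apply mul_le_mul (hgc j) _ (abs_nonneg _) (by positivity)
      have h1 : (x : ℝ) ^ j ≤ (n : ℝ) ^ d := by exact_mod_cast pow_le_aux hx hj'
      have h2 : (z : ℝ) ^ j ≤ (n : ℝ) ^ d := by exact_mod_cast pow_le_aux hz hj'
      have g1 : (0 : ℝ) ≤ (x : ℝ) ^ j := by positivity
      have g2 : (0 : ℝ) ≤ (z : ℝ) ^ j := by positivity
      rw [abs_le]
      constructor <;> linarith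
    refine (Finset.sum_le_sum e2).trans (le_of_eq ?_)
    rw [Finset.sum_const, Finset.card_range, nsmul_eq_mul, hK]
    push_cast
    rw [show (d : ℝ) * (2 * (n : ℝ) ^ d) = (2 * d) * (n : ℝ) ^ d by ring, mul_pow, ← pow_mul,
      pow_add]
    ring
  -- the divisor bound
  set b : ℝ := C1 * K ^ ((1 : ℝ) / L0) * (n : ℝ) ^ ε with hb
  have hb0 : 0 ≤ b := by positivity
  have hB : ∀ x < n, ∀ z < n, g.eval (x : ℤ) ≠ g.eval (z : ℤ) →
      (g.eval (x : ℤ) - g.eval (z : ℤ)).natAbs.divisors.card ≤ ⌊b⌋₊ := by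
    intro x hx z hz hne
    apply Nat.le_floor
    have hm : (g.eval (x : ℤ) - g.eval (z : ℤ)).natAbs ≠ 0 := by
      rw [Int.natAbs_ne_zero]
      exact sub_ne_zero.2 hne
    refine (hdiv _ hm).trans ?_
    rw [hb, mul_assoc]
    apply mul_le_mul_of_nonneg_left _ (by linarith)
    refine (Real.rpow_le_rpow (by positivity) (hsize x hx z hz) (by positivity)).trans ?_
    rw [Real.mul_rpow hK0 (by positivity)]
    apply mul_le_mul_of_nonneg_left _ (by positivity)
    rw [← Real.rpow_natCast, ← Real.rpow_mul (by positivity)]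
    apply Real.rpow_le_rpow_of_exponent_le hn'
    push_cast
    rw [mul_one_div, div_le_iff₀ hL']
    rw [div_lt_iff₀ hε] at hL0
    linarith
  have h3 := quad_le g d n ⌊b⌋₊ hg2 hgd hB
  have h4 : ((quad (fun x => f.eval (x : ℝ)) n).card : ℝ) ≤
      (d ^ 2 * n ^ 2 + 2 * d * ⌊b⌋₊ * n ^ 2 : ℝ) := by
    exact_mod_cast (Finset.card_le_card hsub).trans h3
  have h5 : (⌊b⌋₊ : ℝ) ≤ b := Nat.floor_le hb0
  have h6 : (n : ℝ) ^ (2 + ε) = (n : ℝ) ^ 2 * (n : ℝ) ^ ε := by
    rw [Real.rpow_add (by linarith), Real.rpow_two]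
  have h7 : (1 : ℝ) ≤ (n : ℝ) ^ ε := Real.one_le_rpow hn' hε.le
  calc ((quad (fun x => f.eval (x : ℝ)) n).card : ℝ)
      ≤ d ^ 2 * n ^ 2 + 2 * d * ⌊b⌋₊ * n ^ 2 := h4
    _ ≤ d ^ 2 * n ^ 2 * (n : ℝ) ^ ε + 2 * d * b * n ^ 2 := by
        apply add_le_add
        · exact le_mul_of_one_le_right (by positivity) h7
        · gcongr
    _ = (d ^ 2 + 2 * d * (C1 * K ^ ((1 : ℝ) / L0))) * (n : ℝ) ^ (2 + ε) := by
        rw [h6, hb]
        ring
    _ ≤ _ := by
        apply mul_le_mul_of_nonneg_right _ (by positivity)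
        linarith

/-- the energy of the set of values -/
theorem energy_le_quad (φ : ℕ → ℝ) (n : ℕ) :
    E[(range n).image φ, (range n).image φ] ≤ (quad φ n).card := by
  classical
  have h : ({x ∈ (((range n).image φ ×ˢ (range n).image φ) ×ˢ
      (range n).image φ ×ˢ (range n).image φ) | x.1.1 + x.2.1 = x.1.2 + x.2.2} :
        Finset ((ℝ × ℝ) × (ℝ × ℝ))) ⊆
      (quad φ n).image (fun q => ((φ q.1.1, φ q.2.1), (φ q.1.2, φ q.2.2))) := by
    intro x hx
    obtain ⟨a, b⟩ := Finset.mem_filter.1 hx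
    obtain ⟨a1, a2⟩ := Finset.mem_product.1 a
    obtain ⟨c1, c2⟩ := Finset.mem_product.1 a1
    obtain ⟨c3, c4⟩ := Finset.mem_product.1 a2
    obtain ⟨y1, hy1, e1⟩ := Finset.mem_image.1 c1
    obtain ⟨y2, hy2, e2⟩ := Finset.mem_image.1 c2
    obtain ⟨y3, hy3, e3⟩ := Finset.mem_image.1 c3
    obtain ⟨y4, hy4, e4⟩ := Finset.mem_image.1 c4
    refine Finset.mem_image.2 ⟨((y1, y3), (y2, y4)), ?_, ?_⟩
    · rw [mem_quad]
      refine ⟨⟨⟨Finset.mem_range.1 hy1, Finset.mem_range.1 hy3⟩,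
        Finset.mem_range.1 hy2, Finset.mem_range.1 hy4⟩, ?_⟩
      change φ y1 + φ y3 = φ y2 + φ y4
      rw [e1, e2, e3, e4]
      exact b
    · change ((φ y1, φ y2), (φ y3, φ y4)) = x
      rw [e1, e2, e3, e4]
  exact (Finset.card_le_card h).trans Finset.card_image_le

/-- the energy of a set covered by the values of `m` polynomials -/
theorem energy_poly_cover (d : ℕ) (ε : ℝ) (hε : 0 < ε) : ∃ C : ℝ, 0 < C ∧
    ∀ (m : ℕ) (f : Fin m → ℝ[X]) (n : Fin m → ℕ),
    (∀ j, 2 ≤ (f j).natDegree ∧ (f j).natDegree ≤ d) →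
    ∀ A : Finset ℝ, (∀ a ∈ A, ∃ j, ∃ x < n j, (f j).eval (x : ℝ) = a) →
    (E[A, A] : ℝ) ≤ C * (m : ℝ) ^ 2 * ((∑ j, n j : ℕ) : ℝ) ^ (2 + ε) := by
  classical
  obtain ⟨C, hC, hP⟩ := quad_poly d ε hε
  refine ⟨C, hC, ?_⟩
  intro m f n hf A hA
  have h1 := energy_cover A (fun j => (range (n j)).image (fun x : ℕ => (f j).eval (x : ℝ)))
    (by
      intro a ha
      obtain ⟨j, x, hx, he⟩ := hA a ha
      exact ⟨j, Finset.mem_image.2 ⟨x, Finset.mem_range.2 hx, he⟩⟩)
  rw [Fintype.card_fin] at h1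
  set N : ℝ := ((∑ j, n j : ℕ) : ℝ) with hN
  have hN0 : 0 ≤ N := by positivity
  have hnN : ∀ j, (n j : ℝ) ≤ N := by
    intro j
    rw [hN]
    exact_mod_cast Finset.single_le_sum (f := n) (fun _ _ => Nat.zero_le _) (Finset.mem_univ j)
  have h2 : ∀ j, Real.sqrt (E[(range (n j)).image (fun x : ℕ => (f j).eval (x : ℝ)),
      (range (n j)).image (fun x : ℕ => (f j).eval (x : ℝ))]) ≤
      Real.sqrt C * ((n j : ℝ) * N ^ (ε / 2)) := by
    intro j
    have h3 : (E[(range (n j)).image (fun x : ℕ => (f j).eval (x : ℝ)),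
      (range (n j)).image (fun x : ℕ => (f j).eval (x : ℝ))] : ℝ) ≤
      C * (n j : ℝ) ^ (2 + ε) :=
      le_trans (by exact_mod_cast energy_le_quad (fun x : ℕ => (f j).eval (x : ℝ)) (n j))
        (hP (f j) (n j) (hf j).1 (hf j).2)
    refine (Real.sqrt_le_sqrt h3).trans ?_
    rw [Real.sqrt_mul hC.le]
    apply mul_le_mul_of_nonneg_left _ (Real.sqrt_nonneg _)
    rw [Real.sqrt_le_iff]
    refine ⟨by positivity, ?_⟩
    rcases Nat.eq_zero_or_pos (n j) with h0 | hpos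
    · rw [h0]
      simp only [Nat.cast_zero, zero_mul]
      rw [Real.zero_rpow (by linarith)]
      positivity
    · have hnj : (0 : ℝ) < n j := by exact_mod_cast hpos
      rw [mul_pow, Real.rpow_add hnj, Real.rpow_two, ← Real.rpow_natCast (N ^ (ε / 2)) 2,
        ← Real.rpow_mul hN0]
      apply mul_le_mul_of_nonneg_left _ (by positivity)
      have h5 : ε / 2 * ((2 : ℕ) : ℝ) = ε := by push_cast; ring
      rw [h5]
      exact Real.rpow_le_rpow hnj.le (hnN j) hε.le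
  have h3 : ∑ j, Real.sqrt (E[(range (n j)).image (fun x : ℕ => (f j).eval (x : ℝ)),
      (range (n j)).image (fun x : ℕ => (f j).eval (x : ℝ))]) ≤
      Real.sqrt C * (N * N ^ (ε / 2)) := by
    refine (Finset.sum_le_sum (fun j _ => h2 j)).trans (le_of_eq ?_)
    rw [← Finset.mul_sum, ← Finset.sum_mul, hN]
    push_cast
    rfl
  have h4 : (∑ j, Real.sqrt (E[(range (n j)).image (fun x : ℕ => (f j).eval (x : ℝ)),
      (range (n j)).image (fun x : ℕ => (f j).eval (x : ℝ))])) ^ 2 ≤ C * N ^ (2 + ε) := by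
    refine (pow_le_pow_left₀ (Finset.sum_nonneg (fun j _ => Real.sqrt_nonneg _)) h3 2).trans ?_
    rw [mul_pow, Real.sq_sqrt hC.le]
    apply mul_le_mul_of_nonneg_left _ hC.le
    rcases hN0.eq_or_lt with h0 | hpos
    · rw [← h0]
      simp only [zero_mul]
      rw [Real.zero_rpow (by linarith)]
      norm_num
    · rw [mul_pow, Real.rpow_add hpos, Real.rpow_two, ← Real.rpow_natCast (N ^ (ε / 2)) 2,
        ← Real.rpow_mul hN0]
      have h5 : ε / 2 * ((2 : ℕ) : ℝ) = ε := by push_cast; ring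
      rw [h5]
  calc (E[A, A] : ℝ) ≤ (m : ℝ) ^ 2 * (∑ j, Real.sqrt (E[(range (n j)).image
        (fun x : ℕ => (f j).eval (x : ℝ)),
      (range (n j)).image (fun x : ℕ => (f j).eval (x : ℝ))])) ^ 2 := h1
    _ ≤ (m : ℝ) ^ 2 * (C * N ^ (2 + ε)) := mul_le_mul_of_nonneg_left h4 (by positivity)
    _ = C * (m : ℝ) ^ 2 * N ^ (2 + ε) := by ring

end Pool.Agent.Lib_helper96.CvxPoly
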