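import Pool.Agent.Lib_helper96.CvxPoly.Siegel
import Pool.Agent.Lib_helper91.Div

/-!
# Counting the solutions of `g x + g y = g z + g w` for an integer polynomial `g`
-/

set_option autoImplicit false

namespace Pool.Agent.Lib_helper96.CvxPoly

open Finset Polynomial

/-- a polynomial with a constant difference has degree at most one -/
theorem natDegree_le_one_of_shift (g : ℝ[X]) (δ m : ℝ) (hδ : δ ≠ 0)
    (h : ∀ y : ℝ, g.eval (y + δ) - g.eval y = m) : g.natDegree ≤ 1 := by
  have h1 : ∀ k : ℕ, g.eval (k * δ) = g.eval 0 + k * m := by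
    intro k
    induction k with
    | zero => simp
    | succ k ih =>
      have h2 := h (k * δ)
      have h3 : ((k + 1 : ℕ) : ℝ) * δ = k * δ + δ := by push_cast; ring
      rw [h3]
      push_cast
      linarith
  have h2 : g.comp (C δ * X) = C (g.eval 0) + C m * X := by
    apply Polynomial.eq_of_infinite_eval_eq
    have h3 : Set.range (fun k : ℕ => (k : ℝ)) ⊆
        {x | (g.comp (C δ * X)).eval x = (C (g.eval 0) + C m * X).eval x} := by
      rintro _ ⟨k, rfl⟩
      simp only [Set.mem_setOf_eq, eval_comp, eval_mul, eval_C, eval_X, eval_add]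
      rw [mul_comm δ, h1 k]
      ring
    exact Set.Infinite.mono h3 (Set.infinite_range_of_injective Nat.cast_injective)
  have h3 : (g.comp (C δ * X)).natDegree = g.natDegree := by
    rw [natDegree_comp, natDegree_C_mul_X _ hδ, mul_one]
  rw [← h3, h2]
  refine (natDegree_add_le _ _).trans ?_
  rw [natDegree_C, max_le_iff]
  refine ⟨Nat.zero_le _, ?_⟩
  refine (natDegree_C_mul_le _ _).trans ?_
  rw [natDegree_X]

theorem roots_count (h : ℝ[X]) (h0 : h ≠ 0) (S : Finset ℝ) (hS : ∀ y ∈ S, h.eval y = 0) :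
    S.card ≤ h.natDegree := by
  have h1 : S ⊆ h.roots.toFinset := by
    intro y hy
    rw [Multiset.mem_toFinset, mem_roots h0]
    exact hS y hy
  exact (Finset.card_le_card h1).trans
    ((Multiset.toFinset_card_le _).trans (Polynomial.card_roots' h))

/-- the number of representations `g w - g y = m` -/
def rep (g : ℤ[X]) (n : ℕ) (m : ℤ) : ℕ :=
  ((range n ×ˢ range n).filter (fun p : ℕ × ℕ => g.eval (p.1 : ℤ) - g.eval (p.2 : ℤ) = m)).card

theorem eval_cast (g : ℤ[X]) (x : ℤ) :
    (g.map (Int.castRingHom ℝ)).eval (x : ℝ) = ((g.eval x : ℤ) : ℝ) := by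
  rw [eval_map, eval₂_at_intCast]
  simp

theorem natDegree_map_cast (g : ℤ[X]) : (g.map (Int.castRingHom ℝ)).natDegree = g.natDegree :=
  natDegree_map_eq_of_injective (RingHom.injective_int _) g

theorem rep_zero_le (g : ℤ[X]) (d n : ℕ) (h2 : 2 ≤ g.natDegree) (hd : g.natDegree ≤ d) :
    rep g n 0 ≤ d * n := by
  unfold rep
  have h1 := Finset.card_le_mul_card_image_of_maps_to
    (s := (range n ×ˢ range n).filter (fun p : ℕ × ℕ => g.eval (p.1 : ℤ) - g.eval (p.2 : ℤ) = 0))
    (t := range n) (f := fun p => p.2) (n := d) ?_ ?_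
  · rw [card_range] at h1
    exact h1
  · intro p hp
    exact (Finset.mem_product.1 (Finset.mem_filter.1 hp).1).2
  · intro b _
    set gr := g.map (Int.castRingHom ℝ) with hgr
    have hne : gr - C (gr.eval (b : ℝ)) ≠ 0 := by
      intro h
      have h3 : gr = C (gr.eval (b : ℝ)) := sub_eq_zero.1 h
      have h4 := natDegree_map_cast g
      rw [← hgr, h3, natDegree_C] at h4
      omega
    refine le_trans ?_ ((roots_count _ hne
      ((((range n ×ˢ range n).filter (fun p : ℕ × ℕ =>
        g.eval (p.1 : ℤ) - g.eval (p.2 : ℤ) = 0)).filter (fun p => p.2 = b)).image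
          (fun p => (p.1 : ℝ))) ?_).trans ?_)
    · rw [Finset.card_image_of_injOn]
      intro p hp p' hp' he
      have e1 : p.2 = b := (Finset.mem_filter.1 hp).2
      have e2 : p'.2 = b := (Finset.mem_filter.1 hp').2
      have he' : (p.1 : ℝ) = (p'.1 : ℝ) := he
      have e3 : p.1 = p'.1 := by exact_mod_cast he'
      exact Prod.ext e3 (e1.trans e2.symm)
    · intro y hy
      obtain ⟨p, hp, rfl⟩ := Finset.mem_image.1 hy
      have e1 : p.2 = b := (Finset.mem_filter.1 hp).2
      have e2 := (Finset.mem_filter.1 (Finset.mem_filter.1 hp).1).2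
      rw [e1] at e2
      have e3 : gr.eval ((p.1 : ℤ) : ℝ) - gr.eval ((b : ℤ) : ℝ) = 0 := by
        rw [hgr, eval_cast, eval_cast]
        exact_mod_cast e2
      rw [eval_sub, eval_C]
      push_cast at e3
      exact e3
    · refine (natDegree_sub_le _ _).trans ?_
      rw [natDegree_C, max_le_iff, hgr, natDegree_map_cast]
      exact ⟨hd, Nat.zero_le _⟩

theorem rep_le (g : ℤ[X]) (d n : ℕ) (h2 : 2 ≤ g.natDegree) (hd : g.natDegree ≤ d) (m : ℤ)
    (hm : m ≠ 0) : rep g n m ≤ d * (2 * m.natAbs.divisors.card) := by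
  unfold rep
  let t : Finset ℤ := Finset.image (β := ℤ) (fun e : ℕ => ((e : ℕ) : ℤ)) m.natAbs.divisors ∪
    Finset.image (β := ℤ) (fun e : ℕ => -((e : ℕ) : ℤ)) m.natAbs.divisors
  have ht : t.card ≤ 2 * m.natAbs.divisors.card := by
    refine (Finset.card_union_le _ _).trans ?_
    have e1 := Finset.card_image_le (s := m.natAbs.divisors) (f := fun e : ℕ => ((e : ℕ) : ℤ))
    have e2 := Finset.card_image_le (s := m.natAbs.divisors) (f := fun e : ℕ => -((e : ℕ) : ℤ))
    omega
  refine le_trans ?_ (Nat.mul_le_mul_left d ht)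
  apply Finset.card_le_mul_card_image_of_maps_to (f := fun p : ℕ × ℕ => (p.1 : ℤ) - (p.2 : ℤ))
  · intro p hp
    have h1 := (Finset.mem_filter.1 hp).2
    have h3 : ((p.1 : ℤ) - (p.2 : ℤ)) ∣ m := by
      rw [← h1]
      exact Polynomial.sub_dvd_eval_sub _ _ _
    have h4 : ((p.1 : ℤ) - (p.2 : ℤ)).natAbs ∈ m.natAbs.divisors := by
      rw [Nat.mem_divisors]
      exact ⟨Int.natAbs_dvd_natAbs.2 h3, Int.natAbs_ne_zero.2 hm⟩
    rcases Int.natAbs_eq ((p.1 : ℤ) - (p.2 : ℤ)) with h5 | h5
    · exact Finset.mem_union_left _ (Finset.mem_image.2 ⟨_, h4, h5.symm⟩)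
    · exact Finset.mem_union_right _ (Finset.mem_image.2 ⟨_, h4, h5.symm⟩)
  · intro δ _
    by_cases hδ : δ = 0
    · -- no solutions
      have : (((range n ×ˢ range n).filter (fun p : ℕ × ℕ =>
          g.eval (p.1 : ℤ) - g.eval (p.2 : ℤ) = m)).filter
          (fun p => (p.1 : ℤ) - (p.2 : ℤ) = δ)) = ∅ := by
        rw [Finset.filter_eq_empty_iff]
        intro p hp h3
        have h1 := (Finset.mem_filter.1 hp).2
        rw [hδ, sub_eq_zero] at h3
        rw [h3, sub_self] at h1
        exact hm h1.symm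
      rw [this, Finset.card_empty]
      exact Nat.zero_le _
    · set gr := g.map (Int.castRingHom ℝ) with hgr
      have hδ' : (δ : ℝ) ≠ 0 := by exact_mod_cast hδ
      have hne : gr.comp (X + C (δ : ℝ)) - gr - C (m : ℝ) ≠ 0 := by
        intro h
        have h3 : gr.natDegree ≤ 1 := by
          apply natDegree_le_one_of_shift gr δ m hδ'
          intro y
          have h4 := congrArg (fun f => f.eval y) h
          simp only [eval_sub, eval_comp, eval_add, eval_X, eval_C, eval_zero] at h4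
          linarith
        rw [hgr, natDegree_map_cast] at h3
        omega
      refine le_trans ?_ ((roots_count _ hne
        ((((range n ×ˢ range n).filter (fun p : ℕ × ℕ =>
          g.eval (p.1 : ℤ) - g.eval (p.2 : ℤ) = m)).filter
          (fun p => (p.1 : ℤ) - (p.2 : ℤ) = δ)).image (fun p => (p.2 : ℝ))) ?_).trans ?_)
      · rw [Finset.card_image_of_injOn]
        intro p hp p' hp' he
        have e1 : (p.1 : ℤ) - (p.2 : ℤ) = δ := (Finset.mem_filter.1 hp).2
        have e2 : (p'.1 : ℤ) - (p'.2 : ℤ) = δ := (Finset.mem_filter.1 hp').2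
        have he' : (p.2 : ℝ) = (p'.2 : ℝ) := he
        have e3 : p.2 = p'.2 := by exact_mod_cast he'
        exact Prod.ext (by omega) e3
      · intro y hy
        obtain ⟨p, hp, rfl⟩ := Finset.mem_image.1 hy
        have e1 : (p.1 : ℤ) - (p.2 : ℤ) = δ := (Finset.mem_filter.1 hp).2
        have e2 := (Finset.mem_filter.1 (Finset.mem_filter.1 hp).1).2
        have e4 : ((p.1 : ℤ) : ℝ) = ((p.2 : ℤ) : ℝ) + (δ : ℝ) := by
          rw [← e1]
          push_cast
          ring
        have e3 : gr.eval ((p.1 : ℤ) : ℝ) - gr.eval ((p.2 : ℤ) : ℝ) = (m : ℝ) := by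
          rw [hgr, eval_cast, eval_cast]
          exact_mod_cast e2
        rw [e4] at e3
        simp only [eval_sub, eval_comp, eval_add, eval_X, eval_C]
        push_cast at e3
        linarith
      · refine (natDegree_sub_le _ _).trans ?_
        rw [natDegree_C, max_le_iff]
        refine ⟨?_, Nat.zero_le _⟩
        refine (natDegree_sub_le _ _).trans ?_
        rw [natDegree_comp, natDegree_X_add_C, mul_one, max_self, hgr, natDegree_map_cast]
        exact hd

/-- the quadruples `((x, y), (z, w))` below `n` with `φ x + φ y = φ z + φ w` -/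
noncomputable def quad (φ : ℕ → ℝ) (n : ℕ) : Finset ((ℕ × ℕ) × (ℕ × ℕ)) :=
  open scoped Classical in
  ((range n ×ˢ range n) ×ˢ (range n ×ˢ range n)).filter
    (fun q => φ q.1.1 + φ q.1.2 = φ q.2.1 + φ q.2.2)

theorem mem_quad {φ : ℕ → ℝ} {n : ℕ} {q : (ℕ × ℕ) × (ℕ × ℕ)} :
    q ∈ quad φ n ↔ (((q.1.1 < n ∧ q.1.2 < n) ∧ (q.2.1 < n ∧ q.2.2 < n)) ∧
      φ q.1.1 + φ q.1.2 = φ q.2.1 + φ q.2.2) := by
  unfold quad
  simp only [Finset.mem_filter, Finset.mem_product, Finset.mem_range]

theorem quad_le (g : ℤ[X]) (d n B : ℕ) (h2 : 2 ≤ g.natDegree) (hd : g.natDegree ≤ d)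
    (hB : ∀ x < n, ∀ z < n, g.eval (x : ℤ) ≠ g.eval (z : ℤ) →
      (g.eval (x : ℤ) - g.eval (z : ℤ)).natAbs.divisors.card ≤ B) :
    (quad (fun x => ((g.eval (x : ℤ) : ℤ) : ℝ)) n).card ≤ d ^ 2 * n ^ 2 + 2 * d * B * n ^ 2 := by
  classical
  have h1 : (quad (fun x => ((g.eval (x : ℤ) : ℤ) : ℝ)) n).card ≤
      ∑ p ∈ range n ×ˢ range n, rep g n (g.eval (p.1 : ℤ) - g.eval (p.2 : ℤ)) := by
    rw [Finset.card_eq_sum_card_fiberwise (f := fun q : (ℕ × ℕ) × (ℕ × ℕ) => (q.1.1, q.2.1))
      (t := range n ×ˢ range n)]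
    · apply Finset.sum_le_sum
      intro p hp
      unfold rep
      apply Finset.card_le_card_of_injOn (fun q => (q.2.2, q.1.2))
      · intro q hq
        have hq' := Finset.mem_filter.1 (Finset.mem_coe.1 hq)
        obtain ⟨⟨⟨a1, a2⟩, a3, a4⟩, a5⟩ := mem_quad.1 hq'.1
        have a6 := hq'.2
        rw [Finset.mem_coe, Finset.mem_filter, Finset.mem_product, Finset.mem_range,
          Finset.mem_range]
        refine ⟨⟨a4, a2⟩, ?_⟩
        have a7 : p.1 = q.1.1 := by rw [← a6]
        have a8 : p.2 = q.2.1 := by rw [← a6]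
        rw [a7, a8]
        have a9 : g.eval (q.1.1 : ℤ) + g.eval (q.1.2 : ℤ) =
            g.eval (q.2.1 : ℤ) + g.eval (q.2.2 : ℤ) := by exact_mod_cast a5
        change g.eval (q.2.2 : ℤ) - g.eval (q.1.2 : ℤ) = g.eval (q.1.1 : ℤ) - g.eval (q.2.1 : ℤ)
        linarith
      · intro q hq q' hq' he
        have b1 := (Finset.mem_filter.1 (Finset.mem_coe.1 hq)).2
        have b2 := (Finset.mem_filter.1 (Finset.mem_coe.1 hq')).2
        rw [← b2] at b1
        simp only [Prod.mk.injEq] at he b1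
        exact Prod.ext (Prod.ext b1.1 he.2) (Prod.ext b1.2 he.1)
    · intro q hq
      obtain ⟨⟨⟨a1, a2⟩, a3, a4⟩, a5⟩ := mem_quad.1 (Finset.mem_coe.1 hq)
      rw [Finset.mem_coe, Finset.mem_product, Finset.mem_range, Finset.mem_range]
      exact ⟨a1, a3⟩
  have h3 : ∑ p ∈ range n ×ˢ range n, rep g n (g.eval (p.1 : ℤ) - g.eval (p.2 : ℤ)) ≤
      (d * n) * (d * n) + n ^ 2 * (d * (2 * B)) := by
    rw [← Finset.sum_filter_add_sum_filter_not (range n ×ˢ range n)
      (fun p : ℕ × ℕ => g.eval (p.1 : ℤ) - g.eval (p.2 : ℤ) = 0)]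
    apply Nat.add_le_add
    · calc ∑ p ∈ (range n ×ˢ range n).filter
            (fun p : ℕ × ℕ => g.eval (p.1 : ℤ) - g.eval (p.2 : ℤ) = 0),
            rep g n (g.eval (p.1 : ℤ) - g.eval (p.2 : ℤ))
          ≤ ∑ p ∈ (range n ×ˢ range n).filter
            (fun p : ℕ × ℕ => g.eval (p.1 : ℤ) - g.eval (p.2 : ℤ) = 0), d * n := by
            apply Finset.sum_le_sum
            intro p hp
            rw [(Finset.mem_filter.1 hp).2]
            exact rep_zero_le g d n h2 hd
        _ = rep g n 0 * (d * n) := by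
            rw [Finset.sum_const, smul_eq_mul]
            rfl
        _ ≤ (d * n) * (d * n) := Nat.mul_le_mul_right _ (rep_zero_le g d n h2 hd)
    · calc ∑ p ∈ (range n ×ˢ range n).filter
            (fun p : ℕ × ℕ => ¬ (g.eval (p.1 : ℤ) - g.eval (p.2 : ℤ) = 0)),
            rep g n (g.eval (p.1 : ℤ) - g.eval (p.2 : ℤ))
          ≤ ∑ p ∈ (range n ×ˢ range n).filter
            (fun p : ℕ × ℕ => ¬ (g.eval (p.1 : ℤ) - g.eval (p.2 : ℤ) = 0)), d * (2 * B) := by
            apply Finset.sum_le_sum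
            intro p hp
            have hp' := Finset.mem_filter.1 hp
            have hp1 := Finset.mem_product.1 hp'.1
            refine (rep_le g d n h2 hd _ hp'.2).trans ?_
            apply Nat.mul_le_mul_left
            apply Nat.mul_le_mul_left
            exact hB p.1 (Finset.mem_range.1 hp1.1) p.2 (Finset.mem_range.1 hp1.2)
              (fun h => hp'.2 (sub_eq_zero.2 h))
        _ ≤ n ^ 2 * (d * (2 * B)) := by
            rw [Finset.sum_const, smul_eq_mul]
            apply Nat.mul_le_mul_right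
            refine (Finset.card_filter_le _ _).trans ?_
            rw [Finset.card_product, Finset.card_range, sq]
  refine h1.trans (h3.trans (le_of_eq ?_))
  ring

end Pool.Agent.Lib_helper96.CvxPoly
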