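import Mathlib

/-!
# A system of homogeneous linear equations with small integer coefficients which has a nonzero real
solution has a small nonzero integer solution
-/

set_option autoImplicit false

namespace Pool.Agent.Lib_helper96.CvxPoly

attribute [local instance] Matrix.seminormedAddCommGroup

open Finset

theorem siegel {J : Type} [Fintype J] (V : Set (J → ℤ)) (H : ℝ) (hH : 1 ≤ H)
    (hV : ∀ v ∈ V, ∀ j, |(v j : ℝ)| ≤ H) (c : J → ℝ) (hc : c ≠ 0)
    (hcv : ∀ v ∈ V, ∑ j, (v j : ℝ) * c j = 0) :
    ∃ t : J → ℤ, t ≠ 0 ∧ (∀ v ∈ V, ∑ j, v j * t j = 0) ∧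
      ∀ j, |(t j : ℝ)| ≤ (Fintype.card J * H) ^ Fintype.card J := by
  classical
  obtain ⟨j0, hj0⟩ := Function.ne_iff.1 hc
  have hcard : 1 ≤ Fintype.card J := Fintype.card_pos_iff.2 ⟨j0⟩
  let cast : (J → ℤ) → (J → ℝ) := fun v j => (v j : ℝ)
  obtain ⟨b, hb1, hb2, hb3⟩ := exists_linearIndependent ℝ (cast '' V)
  have hbfin : b.Finite := hb3.setFinite
  have : Fintype b := hbfin.fintype
  -- the functional `c`
  let L : (J → ℝ) →ₗ[ℝ] ℝ := ∑ j, c j • LinearMap.proj j
  have hL : ∀ u, L u = ∑ j, u j * c j := by
    intro u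
    simp only [L, LinearMap.sum_apply, LinearMap.smul_apply, LinearMap.proj_apply, smul_eq_mul]
    exact Finset.sum_congr rfl (fun j _ => mul_comm _ _)
  have hLc : L c ≠ 0 := by
    rw [hL]
    have h1 : 0 < ∑ j, c j * c j := by
      apply Finset.sum_pos'
      · intro j _
        exact mul_self_nonneg _
      · exact ⟨j0, Finset.mem_univ _, mul_self_pos.2 hj0⟩
    exact h1.ne'
  have hspan : Submodule.span ℝ b ≤ LinearMap.ker L := by
    rw [Submodule.span_le]
    intro u hu
    obtain ⟨v, hv, rfl⟩ := hb1 hu
    rw [SetLike.mem_coe, LinearMap.mem_ker, hL]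
    exact hcv v hv
  have hlt : Fintype.card b < Fintype.card J := by
    have h1 : Module.finrank ℝ (Submodule.span ℝ b) = Fintype.card b := by
      have h := finrank_span_set_eq_card (R := ℝ) (s := b) hb3
      rw [h, Set.toFinset_card]
    have h2 : Submodule.span ℝ b < ⊤ := by
      rw [lt_top_iff_ne_top]
      intro h
      have h3 : c ∈ Submodule.span ℝ b := by rw [h]; trivial
      exact hLc (hspan h3)
    have h3 := Submodule.finrank_lt h2.ne
    rw [Module.finrank_fintype_fun_eq_card] at h3
    omega
  rcases Nat.eq_zero_or_pos (Fintype.card b) with h0 | hpos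
  · -- all the equations are trivial
    have hbe : b = ∅ := by
      rw [Fintype.card_eq_zero_iff] at h0
      exact Set.isEmpty_coe_sort.1 h0
    have hzero : ∀ v ∈ V, v = 0 := by
      intro v hv
      have h1 : cast v ∈ Submodule.span ℝ (cast '' V) := Submodule.subset_span ⟨v, hv, rfl⟩
      rw [← hb2, hbe, Submodule.span_empty, Submodule.mem_bot] at h1
      funext j
      have h2 : (v j : ℝ) = 0 := congrFun h1 j
      exact_mod_cast h2
    refine ⟨Pi.single j0 1, ?_, ?_, ?_⟩
    · intro h
      have := congrFun h j0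
      rw [Pi.single_eq_same] at this
      exact one_ne_zero this
    · intro v hv
      rw [hzero v hv]
      simp
    · intro j
      have h1 : |((Pi.single j0 1 : J → ℤ) j : ℝ)| ≤ 1 := by
        by_cases h : j = j0
        · rw [h, Pi.single_eq_same]
          simp
        · rw [Pi.single_eq_of_ne h]
          simp
      refine h1.trans ?_
      apply one_le_pow₀
      have : (1 : ℝ) ≤ Fintype.card J := by exact_mod_cast hcard
      nlinarith
  · -- Siegel's lemma
    have hch : ∀ i : b, ∃ v ∈ V, cast v = i := fun i => hb1 i.2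
    choose w hw1 hw2 using hch
    let A : Matrix b J ℤ := fun i j => w i j
    obtain ⟨t, ht0, htA, htn⟩ := Int.Matrix.exists_ne_zero_int_vec_norm_le A hlt hpos
    have hAn : ‖A‖ ≤ H := by
      rw [Matrix.norm_le_iff (by linarith)]
      intro i j
      rw [Int.norm_eq_abs]
      exact hV (w i) (hw1 i) j
    refine ⟨t, ht0, ?_, ?_⟩
    · intro v hv
      let T : (J → ℝ) →ₗ[ℝ] ℝ := ∑ j, (t j : ℝ) • LinearMap.proj j
      have hT : ∀ u, T u = ∑ j, u j * (t j : ℝ) := by
        intro u
        simp only [T, LinearMap.sum_apply, LinearMap.smul_apply, LinearMap.proj_apply, smul_eq_mul]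
        exact Finset.sum_congr rfl (fun j _ => mul_comm _ _)
      have h1 : Submodule.span ℝ b ≤ LinearMap.ker T := by
        rw [Submodule.span_le]
        intro u hu
        rw [SetLike.mem_coe, LinearMap.mem_ker, hT]
        have h2 := congrFun htA ⟨u, hu⟩
        have h3 : ∑ j, w ⟨u, hu⟩ j * t j = 0 := h2
        have h4 : u = cast (w ⟨u, hu⟩) := (hw2 ⟨u, hu⟩).symm
        rw [h4]
        change ∑ j, (w ⟨u, hu⟩ j : ℝ) * (t j : ℝ) = 0
        exact_mod_cast h3
      have h2 : cast v ∈ Submodule.span ℝ b := by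
        rw [hb2]
        exact Submodule.subset_span ⟨v, hv, rfl⟩
      have h3 := h1 h2
      rw [LinearMap.mem_ker, hT] at h3
      change ∑ j, (v j : ℝ) * (t j : ℝ) = 0 at h3
      exact_mod_cast h3
    · intro j
      have h1 : |(t j : ℝ)| ≤ ‖t‖ := by
        rw [← Int.norm_eq_abs]
        exact norm_le_pi_norm t j
      refine h1.trans (htn.trans ?_)
      have hJ : (1 : ℝ) ≤ Fintype.card J := by exact_mod_cast hcard
      have hbase : (1 : ℝ) ≤ Fintype.card J * H := by nlinarith
      have hb' : (1 : ℝ) ≤ Fintype.card b := by exact_mod_cast hpos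
      have hbJ : (Fintype.card b : ℝ) + 1 ≤ Fintype.card J := by exact_mod_cast hlt
      have hmax : max 1 ‖A‖ ≤ H := max_le hH hAn
      have hexp : (Fintype.card b : ℝ) / (Fintype.card J - Fintype.card b) ≤ Fintype.card J := by
        rw [div_le_iff₀ (by linarith)]
        nlinarith
      calc (Fintype.card J * max 1 ‖A‖ : ℝ) ^
            ((Fintype.card b : ℝ) / (Fintype.card J - Fintype.card b))
          ≤ (Fintype.card J * H : ℝ) ^
            ((Fintype.card b : ℝ) / (Fintype.card J - Fintype.card b)) := by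
            apply Real.rpow_le_rpow (by positivity)
            · exact mul_le_mul_of_nonneg_left hmax (by positivity)
            · apply div_nonneg (by positivity)
              linarith
        _ ≤ (Fintype.card J * H : ℝ) ^ (Fintype.card J : ℝ) :=
            Real.rpow_le_rpow_of_exponent_le hbase hexp
        _ = (Fintype.card J * H) ^ Fintype.card J := Real.rpow_natCast _ _

end Pool.Agent.Lib_helper96.CvxPoly
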